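import Pool.Agent.Lib.MP_a325a5_ag.GK.FinG
import Pool.Agent.Lib.MP_a325a5_ag.NE.Generic

/-!
# Zilber-Pink for the subvarieties of codimension at most `k` of `𝔾_mⁿ` over a curve of `𝔾_m^k`, every `k`

Let `k = κ + 3 ≥ 3`.  Let `C` be an irreducible closed curve in the torus of dimension `k` over the algebraic
numbers which is not contained in a proper coset (no `x ^ a`, `a ≠ 0`, is constant on `C`).  Suppose that for
some complex embedding `τ` of the algebraic numbers

(NA) for all linearly independent `r, s` in `ℝ^k` only finitely many complex points `w` of the curve `τ C`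
satisfy `∑ r_j log |w_j| = ∑ s_j log |w_j| = 0`.

Let `X` be an irreducible closed subvariety of `𝔾_mⁿ` over the complex numbers, of codimension at most
`k`, and suppose that `k` independent characters `x ↦ x ^ a_j` map `X` into `C`.  Then the union
of the atypical special subvarieties of `X` is not Zariski dense in `X`.

Examples: all hypersurfaces of `C × 𝔾_m^(n - k)` (of every dimension and degree).  These varieties are not
covered by the theorems on bounded height: all points of `X` lie on anomalous subvarieties if `dim X > 1`.

The other two parts of the theorem give curves that satisfy all the hypotheses on `C`, with (NA) for every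
embedding `τ`: the curves with a parametrisation `x_j = γ_j ∏_{i < N} (t - β_i) ^ (v i j)`, `N ≥ 4 k`, for all
distinct algebraic numbers `β_i`, all nonzero algebraic numbers `γ_j` and all matrices `v` of exponents outside a
proper algebraic subset that depends on `k` and `N` only; and, for `N = k^3`, the explicit exponents
`v i j = e_i ^ j`, `e_i = 2 ^ (k ^ i)`.  So for these curves the first part holds without any further hypothesis.

Idea of the proof.  The points of small rank have algebraic coordinates and are solutions of a linear
equation `∑ f_i(c_1) z_i = 0` without vanishing subsums, with `c ∈ C` and `z_i` in the division hull of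
`⟨c_1, .., c_k⟩`, which has rank `k - 1`.  The heights of the `c` are bounded (a linear height inequality with a
constant uniform in the character).  If the heights of the `z_i` are large then at a positive proportion
of the complex places the vector `(log |c_j|)_j` is nearly orthogonal to one of finitely many planes,
so the conjugates of `c` cluster near a finite set and a discriminant estimate bounds the degree of `c`.
Otherwise small relations (geometry of numbers), a relative lower bound for products of heights of `k - 1`
independent numbers over cyclotomic fields in the style of Amoroso and David (proved here for all numbers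
of factors, with a multiplicity estimate on the torus), and a dimension count in a valuation ring of the
cover of `C` that passes through the point bound the degree, unless the equation holds identically on this
cover; these covers are finitely many (a derivation, a Kummer argument, and roots of unity in linear
equations).

For the other parts: an infinite exceptional set of (NA) contains a real analytic arc; the reflection in
this arc matches the zeros and poles of every function `x ^ a` of the plane of `r` and `s` with zeros and poles
of the conjugate curve, with opposite orders, which is impossible for generic exponents.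
-/

namespace Pool.Agent.Results.MP_a325a5_ag.CodimKOverCurve

open Pool.Agent.Lib.MP_a325a5_ag.UL BMK

/-- `C` is not contained in a proper coset of the torus: no nontrivial character is constant on `C`. -/
def NotInCoset {k : ℕ} (C : Set (Fin k → (AlgebraicClosure ℚ)ˣ)) : Prop :=
  ∀ a : Fin k → ℤ, a ≠ 0 → ∀ ζ : (AlgebraicClosure ℚ)ˣ, ¬ ∀ x ∈ C, ∏ j, x j ^ a j = ζ

/-- (NA): for all linearly independent `r, s` in `ℝ^k` only finitely many complex points of the curve `τ C`
have a logarithmic vector orthogonal to `r` and `s`. -/
def NA {k : ℕ} (τ : AlgebraicClosure ℚ →+* ℂ) (C : Set (Fin k → (AlgebraicClosure ℚ)ˣ)) : Prop :=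
  ∀ r s : Fin k → ℝ, LinearIndependent ℝ ![r, s] →
    {w : Fin k → ℂˣ | w ∈ cpts τ C ∧ ∑ j, r j * Real.log ‖(w j : ℂ)‖ = 0 ∧
      ∑ j, s j * Real.log ‖(w j : ℂ)‖ = 0}.Finite

/-- All hypotheses on the curve in the first part of the theorem, with (NA) for every embedding. -/
def AllHypotheses {k : ℕ} (C : Set (Fin k → (AlgebraicClosure ℚ)ˣ)) : Prop :=
  IrrClosed C ∧ zdim C = 1 ∧ NotInCoset C ∧ ∀ τ : AlgebraicClosure ℚ →+* ℂ, NA τ C

/-- Let `k = κ + 3`.

First part: let `C` be an irreducible closed curve of the torus of dimension `k` over the algebraic numbers,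
not contained in a proper coset, with (NA) for some embedding `τ`.  Then for all irreducible closed complex
subvarieties `X` of `𝔾_mⁿ` of dimension at least `n - k` such that `k` independent characters map `X`
into `C`, the atypical locus of `X` is not Zariski dense in `X`.

Second part: for `N ≥ 4 k` there is a nonzero polynomial `Q` with integral coefficients in `N k` variables such
that for all matrices `v` of exponents with `Q(v) ≠ 0`, all distinct algebraic numbers `β_i`, `i < N`, and all
nonzero algebraic numbers `γ_j` the curve `x_j = γ_j ∏_i (t - β_i) ^ (v i j)` satisfies all these hypotheses,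
with (NA) for every `τ`.

Third part: the same holds for `N = k^3` and the exponents `v i j = e_i ^ j` with `e_i = 2 ^ (k ^ i)`. -/
theorem result :
    (∀ (κ : ℕ) (C : Set (Fin (κ + 3) → (AlgebraicClosure ℚ)ˣ)), IrrClosed C → zdim C = 1 →
      NotInCoset C → ∀ τ : AlgebraicClosure ℚ →+* ℂ, NA τ C →
      ∀ (φ : AlgebraicClosure ℚ →+* ℂ) (n : ℕ) (a : Fin (κ + 3) → Fin n → ℤ),
      LinearIndependent ℤ a → ∀ X : Set (Fin n → ℂˣ), IrrClosed X →
      (n : WithBot ℕ∞) ≤ zdim X + ((κ + 3 : ℕ) : WithBot ℕ∞) →
      (∀ y ∈ X, (fun j => ∏ i, y i ^ a j i) ∈ cpts φ C) →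
      ¬ DenseIn (HLatyp X) X) ∧
    (∀ κ N : ℕ, 4 * (κ + 3) ≤ N → ∃ Q : MvPolynomial (Fin N × Fin (κ + 3)) ℤ, Q ≠ 0 ∧
      ∀ v : Fin N → Fin (κ + 3) → ℕ, MvPolynomial.eval (fun p => (v p.1 p.2 : ℤ)) Q ≠ 0 →
      ∀ β : Fin N → AlgebraicClosure ℚ, Function.Injective β →
      ∀ γ : Fin (κ + 3) → (AlgebraicClosure ℚ)ˣ,
      AllHypotheses {x : Fin (κ + 3) → (AlgebraicClosure ℚ)ˣ | ∃ t : AlgebraicClosure ℚ,
        ∀ j, (x j : AlgebraicClosure ℚ) = γ j * ∏ i, (t - β i) ^ v i j}) ∧
    ∀ (κ : ℕ) (β : Fin ((κ + 3) ^ 3) → AlgebraicClosure ℚ), Function.Injective β →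
      ∀ γ : Fin (κ + 3) → (AlgebraicClosure ℚ)ˣ,
      AllHypotheses {x : Fin (κ + 3) → (AlgebraicClosure ℚ)ˣ | ∃ t : AlgebraicClosure ℚ,
        ∀ j, (x j : AlgebraicClosure ℚ) =
          γ j * ∏ i : Fin ((κ + 3) ^ 3), (t - β i) ^ ((2 ^ ((κ + 3) ^ (i : ℕ))) ^ (j : ℕ))} := by
  refine ⟨fun κ C hC hd hcos τ hNA φ n a ha X hX hdim hXC =>
    BMK.theoremG C hC hd hcos τ hNA φ n a ha X hX hdim hXC, fun κ N hN => ?_, fun κ β hβ γ => ?_⟩
  · obtain ⟨Q, hQ, h⟩ := NE.generic κ N hN
    exact ⟨Q, hQ, fun v hv β hβ γ => h v hv β hβ γ _ rfl⟩
  · exact NE.explicit κ β hβ γ _ rfl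

end Pool.Agent.Results.MP_a325a5_ag.CodimKOverCurve
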