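import Pool.Agent.Lib.MP_a325a5_ag.GM.MainG

/-! Universality for the Zilber-Pink conjecture for all mixed Shimura varieties. -/

set_option autoImplicit false

namespace Pool.Agent.Results.MP_a325a5_ag.MixedShimuraUniversality

open Pool.Agent.Lib.MP_a325a5_ag.UM (Pt IrrClosed DenseIn bc NoetherNorm VT)
open Pool.Agent.Lib.MP_a325a5_ag.GM

/-- Let `S` be a closed subset of an affine space over the algebraic closure of `ℚ` with a family
`𝓕` of special subvarieties of all the products `S × 𝔾_m^β` (for example an affine open subset of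
any connected mixed Shimura variety), and let `K` be an algebraically closed extension field, for
example `ℂ`.  The following are equivalent:

1. the Zilber-Pink conjecture (the problem's Q1) for all `S × 𝔾_m^β` and all their irreducible closed
   subvarieties `X` over `K`, of any dimension and codimension;
2. for every special subvariety `T` of `S`, every Noether normalisation `φ` of `T` and every finite
   set `D` the variety `V_T × ℓ^D` over the algebraic closure of `ℚ`, where
   `V_T = {w_i = u_i + v_i + φ_i(s)} ⊆ T × 𝔾_m^(3 dim T)` and `ℓ ⊆ 𝔾_m²` is the line `x + y = 1`, has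
   only finitely many maximal atypical special subvarieties;
3. the same for one Noether normalisation of every `T`. -/
theorem result (K : Type) [Field K] [IsAlgClosed K] [CharZero K]
    [Algebra (AlgebraicClosure ℚ) K] (α : Type) [Fintype α] (S : Set (α → AlgebraicClosure ℚ))
    (𝓕 : (β : Type) → Set (Set (Pt (AlgebraicClosure ℚ) α β))) (hF : Family S 𝓕) :
    List.TFAE [
      ∀ (β : Type) [Fintype β] (X : Set (Pt K α β)), IrrClosed X → (∀ x ∈ X, x.1 ∈ bc K S) →
        ¬ DenseIn (HLatyp 𝓕 X) X,
      ∀ T ∈ base 𝓕, ∀ (a : ℕ) (φ : Fin a → MvPolynomial α (AlgebraicClosure ℚ)),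
        NoetherNorm T φ → ∀ (D : Type) [Fintype D], (MaxAtypical 𝓕 (VT T φ D)).Finite,
      ∀ T ∈ base 𝓕, ∃ (a : ℕ) (φ : Fin a → MvPolynomial α (AlgebraicClosure ℚ)),
        NoetherNorm T φ ∧ ∀ (D : Type) [Fintype D], (MaxAtypical 𝓕 (VT T φ D)).Finite] :=
  universality K α S 𝓕 hF

end Pool.Agent.Results.MP_a325a5_ag.MixedShimuraUniversality
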