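import Pool.Agent.Lib.MP_a325a5_ag.Y1.Residues

/-!
# Zilber-Pink in `Y(1)^n` for a positive proportion of all complete intersections

`Y(1)^n` is the affine space `ℂ^n` whose coordinates are `j`-invariants. For all multidegrees,
a positive proportion of the systems of `r` integral polynomials have a zero set `X` which meets
no special subvariety of codimension larger than `n - r` and contains no atypical special
subvariety of positive dimension either.

Idea: for every partition of the coordinates into `r - 1` classes (and a class of CM coordinates)
there is a prime `p` such that, for every `k < r`, the `k`-th polynomial is modulo `p` a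
combination of the corner monomials belonging to the unions of `k` classes. These unions form an
antichain, so that the corner monomial of the set `B` of non-integral coordinates of a point
dominates if `B` is one of them. Potential good reduction is an isogeny invariant, so `B` is always
a union of classes.
-/

namespace Pool.Agent.Results.MP_a325a5_ag.ModularSystems

open MvPolynomial Pool.Agent.Lib.MP_a325a5_ag.Y1

/-- Let `1 ≤ r` and let `M k i ≥ 1` (`k < r`, `i < n`) be given multidegrees. There are a modulus
`N` and residues `c` such that for all systems of `r` integral polynomials `f k` of degree at most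
`M k i` in the variable `x i` with coefficients in these residue classes modulo `N`, all
irreducible subvarieties `Z` of the common zero set of the system in `ℂ^n = Y(1)^n` and all special
subvarieties `S` of dimension `s` containing `Z` one has `dim Z + r ≤ s`, that is
`dim Z + codim S ≤ n - r`. -/
theorem result {n r : ℕ} (hr : 1 ≤ r) (M : Fin r → Fin n → ℕ) (hM : ∀ k i, 1 ≤ M k i) :
    ∃ (N : ℕ) (c : Fin r → (Fin n →₀ ℕ) → ℤ), 0 < N ∧
      ∀ f : Fin r → MvPolynomial (Fin n) ℤ, (∀ k i, degreeOf i (f k) ≤ M k i) →
        (∀ k μ, (∀ i, μ i ≤ M k i) → (N : ℤ) ∣ coeff μ (f k) - c k μ) →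
        ∀ Z : Set (Fin n → ℂ), (vanishingIdeal ℂ Z).IsPrime →
          (∀ z ∈ Z, ∀ k, aeval z (f k) = 0) →
          ∀ (s : ℕ) (S : SpecialDatum n s), Z ⊆ S.carrier →
            ringKrullDim (MvPolynomial (Fin n) ℂ ⧸ vanishingIdeal ℂ Z) + (r : WithBot ℕ∞) ≤ s := by
  obtain ⟨m, rfl⟩ : ∃ m, r = m + 1 := ⟨r - 1, by omega⟩
  obtain ⟨N, c, hN, h⟩ := exists_good M
  refine ⟨N, c, hN, ?_⟩
  intro f hdeg hf Z hZ hZf s S hZS
  exact main_special M hM f hdeg (h f hdeg hf) Z hZ hZf S hZS

end Pool.Agent.Results.MP_a325a5_ag.ModularSystems
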