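import Pool.Agent.Lib.MP_a325a5_ag.PM.Main
import Pool.Agent.Lib.MP_a325a5_ag.PM.Ax2
import Pool.Agent.Lib.MP_a325a5_ag.MU.AN.Main

/-! Universality for the Zilber-Pink conjecture for the powers of the modular curve. -/

set_option autoImplicit false

namespace Pool.Agent.Results.MP_a325a5_ag.QuadricUniversality

open Pool.Agent.Lib.MP_a325a5_ag.UM (Pt IrrClosed DenseIn)
open Pool.Agent.Lib.MP_a325a5_ag.MU
open Pool.Agent.Lib.MP_a325a5_ag.PM (QD)

/-- The Zilber-Pink conjecture (the problem's Q1) for all powers `Y(1)^n` of the modular curve and all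
their irreducible closed complex subvarieties `X`, of any dimension and codimension, is equivalent
to the following statement on one explicit variety over the algebraic numbers: for every finite set
`D` the power `V^D` of the quadric threefold `V = {(x, y, z, w) : x y = z + w} ⊆ Y(1)^4` has only
finitely many maximal atypical special subvarieties. -/
theorem result :
    (∀ (α : Type) [Fintype α] (X : Set (Pt ℂ α Empty)), IrrClosed X →
      ¬ DenseIn (HLatyp (YSpecial ℂ α) X) X) ↔
    ∀ (D : Type) [Fintype D],
      (MaxAtypical (YSpecial (AlgebraicClosure ℚ) (Fin 4 × D))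
        (QD (AlgebraicClosure ℚ) D)).Finite :=
  Pool.Agent.Lib.MP_a325a5_ag.PM.universality modAx Pool.Agent.Lib.MP_a325a5_ag.PM.modAx2

end Pool.Agent.Results.MP_a325a5_ag.QuadricUniversality
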